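import Pool.Agent.Q81.SR.Lower

/-!
# The maximal Schmidt rank locus need not be locally closed (MP_60b600_ag, Q1: no)

Over every algebraically closed field `K` (any characteristic) consider the family of cubic
polynomials in `x, y, z, p, q, r` parametrised by the affine plane `S = 𝔸²` with coordinates
`(σ, τ)`,
`P_{σ,τ} = x² + (σ r + τ p) q + y² p + z² q`.
Its rank is `3` if `σ ≠ 0` or `(σ,τ) = (0,0)`, and at most `2` if `σ = 0`, `τ = t² ≠ 0`, because
`t² P = (t² p + z²)(t² q + y²) - (y z + t x)(y z - t x)`.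
So the locus of maximal rank is `{σ ≠ 0} ∪ {(0,0)}`, which is not locally closed.
-/

namespace Pool.Agent.Results.MP_60b600_ag.NotLocallyClosed

open MvPolynomial Pool.Agent.Q81.SR

/-- The (Schmidt) rank: the least `r` such that `P = ∑_{i<r} Q i * R i` with all `Q i`, `R i`
of degree smaller than the degree of `P`. -/
noncomputable def schmidtRank {K : Type*} [Field K] {n : ℕ} (P : MvPolynomial (Fin n) K) : ℕ :=
  sInf {r : ℕ | ∃ Q R : Fin r → MvPolynomial (Fin n) K,
    (∀ i, (Q i).totalDegree < P.totalDegree) ∧ (∀ i, (R i).totalDegree < P.totalDegree) ∧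
      P = ∑ i, Q i * R i}

/-- The common zero set in `K^m` of a set of polynomials. -/
def zeros {K : Type*} [Field K] {m : ℕ} (F : Set (MvPolynomial (Fin m) K)) : Set (Fin m → K) :=
  {s | ∀ f ∈ F, eval s f = 0}

/-- The Zariski topology on `K^m`: the closed sets are the zero sets of sets of polynomials. -/
@[reducible] def zariski (K : Type*) [Field K] (m : ℕ) : TopologicalSpace (Fin m → K) :=
  TopologicalSpace.ofClosed (Set.range (zeros (K := K) (m := m)))
    ⟨{1}, by ext s; simp [zeros]⟩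
    (by
      intro A hA
      refine ⟨⋃ F ∈ {F : Set (MvPolynomial (Fin m) K) | zeros F ∈ A}, F, ?_⟩
      ext s
      simp only [zeros, Set.mem_ofPred_eq, Set.mem_iUnion, Set.mem_sInter]
      constructor
      · intro h t ht
        obtain ⟨F, rfl⟩ := hA ht
        intro f hf
        exact h f ⟨F, ht, hf⟩
      · rintro h f ⟨F, hF, hf⟩
        exact h _ hF f hf)
    (by
      rintro _ ⟨F, rfl⟩ _ ⟨G, rfl⟩
      refine ⟨{h | ∃ f ∈ F, ∃ g ∈ G, h = f * g}, ?_⟩
      ext s
      simp only [zeros, Set.mem_ofPred_eq, Set.mem_union]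
      constructor
      · intro h
        by_contra hcon
        push Not at hcon
        obtain ⟨⟨f, hf, hf0⟩, ⟨g, hg, hg0⟩⟩ := hcon
        have h1 := h (f * g) ⟨f, hf, g, hg, rfl⟩
        rw [map_mul] at h1
        exact (mul_ne_zero hf0 hg0) h1
      · rintro (h | h) _ ⟨f, hf, g, hg, rfl⟩
        · rw [map_mul, h f hf, zero_mul]
        · rw [map_mul, h g hg, mul_zero])

/-- The member of a family of polynomials over `K^m` at the point `s`. The family is given by a
polynomial whose coefficients are regular functions (polynomials) on `K^m`. -/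
noncomputable def member {K : Type*} [Field K] {n m : ℕ}
    (P : MvPolynomial (Fin n) (MvPolynomial (Fin m) K)) (s : Fin m → K) :
    MvPolynomial (Fin n) K :=
  map (eval s) P

/-- The set of parameters at which the rank attains its maximum over the whole family. -/
def maxLocus {K : Type*} [Field K] {n m : ℕ}
    (P : MvPolynomial (Fin n) (MvPolynomial (Fin m) K)) : Set (Fin m → K) :=
  {t | IsGreatest (Set.range fun s => schmidtRank (member P s)) (schmidtRank (member P t))}

/-- The family `x² + (σ r + τ p) q + y² p + z² q` with `(x,y,z,p,q,r) = (X 0, …, X 5)` and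
`(σ,τ) = (X 0, X 1)`. -/
noncomputable def family (K : Type*) [Field K] : MvPolynomial (Fin 6) (MvPolynomial (Fin 2) K) :=
  X 0 ^ 2 + (C (X 0) * X 5 + C (X 1) * X 3) * X 4 + X 1 ^ 2 * X 3 + X 2 ^ 2 * X 4

section
variable {K : Type*} [Field K]

lemma member_family (s : Fin 2 → K) : member (family K) s =
    X 0 ^ 2 + (C (s 0) * X 5 + C (s 1) * X 3) * X 4 + X 1 ^ 2 * X 3 + X 2 ^ 2 * X 4 := by
  unfold member family
  simp

lemma deg_mul_le {n a b : ℕ} {f g : MvPolynomial (Fin n) K} (hf : f.totalDegree ≤ a)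
    (hg : g.totalDegree ≤ b) : (f * g).totalDegree ≤ a + b :=
  (totalDegree_mul f g).trans (add_le_add hf hg)

lemma deg_add_le {n a : ℕ} {f g : MvPolynomial (Fin n) K} (hf : f.totalDegree ≤ a)
    (hg : g.totalDegree ≤ a) : (f + g).totalDegree ≤ a :=
  (totalDegree_add f g).trans (max_le hf hg)

lemma deg_X_le {n : ℕ} (i : Fin n) : (X i : MvPolynomial (Fin n) K).totalDegree ≤ 1 := by
  rw [totalDegree_X]

lemma deg_C_le {n a : ℕ} (c : K) : (C c : MvPolynomial (Fin n) K).totalDegree ≤ a := by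
  rw [totalDegree_C]; exact Nat.zero_le _

lemma deg_X_sq {n : ℕ} (i : Fin n) : (X i ^ 2 : MvPolynomial (Fin n) K).totalDegree ≤ 2 := by
  rw [totalDegree_X_pow]

lemma totalDegree_member (s : Fin 2 → K) : (member (family K) s).totalDegree = 3 := by
  rw [member_family]
  apply le_antisymm
  · refine deg_add_le (deg_add_le (deg_add_le ?_ ?_) ?_) ?_
    · exact (deg_X_sq 0).trans (by norm_num)
    · exact (deg_mul_le (b := 1) (deg_add_le (deg_mul_le (a := 0) (deg_C_le _) (deg_X_le 5))
        (deg_mul_le (a := 0) (deg_C_le _) (deg_X_le 3))) (deg_X_le 4)).trans (by norm_num)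
    · exact deg_mul_le (deg_X_sq 1) (deg_X_le 3)
    · exact deg_mul_le (deg_X_sq 2) (deg_X_le 4)
  · by_contra hlt
    have h0 := homogeneousComponent_eq_zero 3 _ (not_le.mp hlt)
    have hh2 : (X 0 ^ 2 + (C (s 0) * X 5 + C (s 1) * X 3) * X 4 :
        MvPolynomial (Fin 6) K).IsHomogeneous 2 := by
      refine IsHomogeneous.add (isHomogeneous_X_pow 0 2) ?_
      refine IsHomogeneous.mul (m := 1) (n := 1) ?_ (isHomogeneous_X _ _)
      refine IsHomogeneous.add ?_ ?_
      · exact (isHomogeneous_C _ _).mul (isHomogeneous_X _ _)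
      · exact (isHomogeneous_C _ _).mul (isHomogeneous_X _ _)
    have hh3 : (X 1 ^ 2 * X 3 + X 2 ^ 2 * X 4 : MvPolynomial (Fin 6) K).IsHomogeneous 3 :=
      IsHomogeneous.add ((isHomogeneous_X_pow 1 2).mul (isHomogeneous_X _ _))
        ((isHomogeneous_X_pow 2 2).mul (isHomogeneous_X _ _))
    rw [add_assoc _ (X 1 ^ 2 * X 3) _, map_add, homogeneousComponent_of_mem hh2,
      homogeneousComponent_of_mem hh3] at h0
    simp only [if_neg (show (3 : ℕ) ≠ 2 by norm_num), if_true, zero_add] at h0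
    have h1 := congrArg (eval (![0, 1, 0, 1, 0, 0] : Fin 6 → K)) h0
    simp at h1

/-- `P` is a sum of `r` products of two polynomials of degree less than three. -/
def Rep (P : MvPolynomial (Fin 6) K) (r : ℕ) : Prop :=
  ∃ Q R : Fin r → MvPolynomial (Fin 6) K,
    (∀ i, (Q i).totalDegree < 3) ∧ (∀ i, (R i).totalDegree < 3) ∧ P = ∑ i, Q i * R i

lemma rank_eq (s : Fin 2 → K) :
    schmidtRank (member (family K) s) = sInf {r : ℕ | Rep (member (family K) s) r} := by
  unfold schmidtRank Rep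
  rw [totalDegree_member]

lemma Rep.succ {P : MvPolynomial (Fin 6) K} {r : ℕ} (h : Rep P r) : Rep P (r + 1) := by
  obtain ⟨Q, R, hQ, hR, hP⟩ := h
  refine ⟨Fin.cons 0 Q, Fin.cons 0 R, ?_, ?_, ?_⟩
  · intro i; refine Fin.cases ?_ ?_ i
    · simp
    · intro j; simpa using hQ j
  · intro i; refine Fin.cases ?_ ?_ i
    · simp
    · intro j; simpa using hR j
  · rw [Fin.sum_univ_succ]; simpa using hP

lemma Rep.mono {P : MvPolynomial (Fin 6) K} {r r' : ℕ} (h : Rep P r) (hr : r ≤ r') : Rep P r' := by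
  induction hr with
  | refl => exact h
  | step _ ih => exact ih.succ

lemma rep_three (s : Fin 2 → K) : Rep (member (family K) s) 3 := by
  rw [member_family]
  refine ⟨![1, X 1, X 2], ![X 0 ^ 2 + (C (s 0) * X 5 + C (s 1) * X 3) * X 4, X 1 * X 3, X 2 * X 4],
    ?_, ?_, ?_⟩
  · intro i; fin_cases i
    · simp
    · exact lt_of_le_of_lt (deg_X_le 1) (by norm_num)
    · exact lt_of_le_of_lt (deg_X_le 2) (by norm_num)
  · intro i; fin_cases i
    · refine lt_of_le_of_lt (deg_add_le (deg_X_sq 0) ?_) (by norm_num : 2 < 3)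
      exact deg_mul_le (b := 1) (deg_add_le (deg_mul_le (a := 0) (deg_C_le _) (deg_X_le 5))
        (deg_mul_le (a := 0) (deg_C_le _) (deg_X_le 3))) (deg_X_le 4)
    · exact lt_of_le_of_lt (deg_mul_le (deg_X_le 1) (deg_X_le 3)) (by norm_num)
    · exact lt_of_le_of_lt (deg_mul_le (deg_X_le 2) (deg_X_le 4)) (by norm_num)
  · rw [Fin.sum_univ_three]
    simp
    ring

lemma rep_two [IsAlgClosed K] (s : Fin 2 → K) (h0 : s 0 = 0) (h1 : s 1 ≠ 0) :
    Rep (member (family K) s) 2 := by
  obtain ⟨t, ht⟩ := IsAlgClosed.exists_pow_nat_eq (s 1) (n := 2) (by norm_num)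
  have ht0 : t ≠ 0 := by rintro rfl; apply h1; rw [← ht]; ring
  rw [member_family, h0]
  refine ⟨![C (t⁻¹ ^ 2) * (C (t ^ 2) * X 3 + X 2 ^ 2), C (-t⁻¹ ^ 2) * (X 1 * X 2 + C t * X 0)],
    ![C (t ^ 2) * X 4 + X 1 ^ 2, X 1 * X 2 - C t * X 0], ?_, ?_, ?_⟩
  · intro i; fin_cases i
    · refine lt_of_le_of_lt (deg_mul_le (a := 0) (b := 2) (deg_C_le _) (deg_add_le ?_
        (deg_X_sq 2))) (by norm_num)
      exact (deg_mul_le (a := 0) (deg_C_le _) (deg_X_le 3)).trans (by norm_num)
    · refine lt_of_le_of_lt (deg_mul_le (a := 0) (b := 2) (deg_C_le _) (deg_add_le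
        (deg_mul_le (deg_X_le 1) (deg_X_le 2)) ?_)) (by norm_num)
      exact (deg_mul_le (a := 0) (deg_C_le _) (deg_X_le 0)).trans (by norm_num)
  · intro i; fin_cases i
    · refine lt_of_le_of_lt (deg_add_le (a := 2) ?_ (deg_X_sq 1)) (by norm_num)
      exact (deg_mul_le (a := 0) (deg_C_le _) (deg_X_le 4)).trans (by norm_num)
    · refine lt_of_le_of_lt (b := 2) ((totalDegree_sub _ _).trans (max_le
        (deg_mul_le (deg_X_le 1) (deg_X_le 2)) ?_)) (by norm_num)
      exact (deg_mul_le (a := 0) (deg_C_le _) (deg_X_le 0)).trans (by norm_num)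
  · rw [Fin.sum_univ_two, ← ht]
    simp only [Matrix.cons_val_zero, Matrix.cons_val_one, C_0, zero_mul, zero_add, C_pow, C_neg]
    have hC : (C t⁻¹ * C t : MvPolynomial (Fin 6) K) = 1 := by
      rw [← C_mul, inv_mul_cancel₀ ht0, C_1]
    have hC2 : (C t⁻¹ ^ 2 * C t ^ 2 : MvPolynomial (Fin 6) K) = 1 := by
      rw [← mul_pow, hC, one_pow]
    linear_combination (-(X 0 ^ 2 + C t ^ 2 * X 3 * X 4 + X 1 ^ 2 * X 3 + X 2 ^ 2 * X 4)) * hC2

lemma not_rep_two (s : Fin 2 → K) (h : s 0 ≠ 0 ∨ s 1 = 0) : ¬ Rep (member (family K) s) 2 := by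
  rintro ⟨Q, R, hQ, hR, hP⟩
  obtain ⟨c, hc⟩ : ∃ c : K, s 0 * c + s 1 = 0 := by
    by_cases h0 : s 0 = 0
    · exact ⟨0, by rw [mul_zero, zero_add]; exact h.resolve_left (not_not.mpr h0)⟩
    · exact ⟨-s 1 / s 0, by field_simp; ring⟩
  set g : Fin 6 → MvPolynomial (Fin 5) K := ![X 0, X 1, X 2, X 3, X 4, C c * X 3] with hg
  have hg1 : ∀ i, (g i).totalDegree ≤ 1 := by
    intro i
    fin_cases i
    · exact deg_X_le 0
    · exact deg_X_le 1
    · exact deg_X_le 2
    · exact deg_X_le 3
    · exact deg_X_le 4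
    · exact (deg_mul_le (a := 0) (deg_C_le _) (deg_X_le 3)).trans (by norm_num)
  have hdeg : ∀ f : MvPolynomial (Fin 6) K, f.totalDegree < 3 → (aeval g f).totalDegree ≤ 2 :=
    fun f hf => (totalDegree_aeval_le g hg1 f).trans (by omega)
  have h1 := congrArg (aeval g) hP
  rw [member_family, Fin.sum_univ_two, map_add (aeval g) (Q 0 * R 0), map_mul (aeval g) (Q 0),
    map_mul (aeval g) (Q 1)] at h1
  have h2 : aeval g (X 0 ^ 2 + (C (s 0) * X 5 + C (s 1) * X 3) * X 4 + X 1 ^ 2 * X 3 +
      X 2 ^ 2 * X 4 : MvPolynomial (Fin 6) K) = P0 K := by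
    have hcC : (C (s 0) * C c + C (s 1) : MvPolynomial (Fin 5) K) = 0 := by
      rw [← C_mul, ← C_add, hc, C_0]
    have e0 : aeval g (X 0 : MvPolynomial (Fin 6) K) = X 0 := by rw [aeval_X]; rfl
    have e1 : aeval g (X 1 : MvPolynomial (Fin 6) K) = X 1 := by rw [aeval_X]; rfl
    have e2 : aeval g (X 2 : MvPolynomial (Fin 6) K) = X 2 := by rw [aeval_X]; rfl
    have e3 : aeval g (X 3 : MvPolynomial (Fin 6) K) = X 3 := by rw [aeval_X]; rfl
    have e4 : aeval g (X 4 : MvPolynomial (Fin 6) K) = X 4 := by rw [aeval_X]; rfl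
    have e5 : aeval g (X 5 : MvPolynomial (Fin 6) K) = C c * X 3 := by rw [aeval_X]; rfl
    have eC : ∀ r : K, aeval g (C r : MvPolynomial (Fin 6) K) = C r := fun r => by
      rw [aeval_C]; rfl
    rw [map_add, map_add, map_add, map_mul, map_mul, map_mul, map_add, map_mul, map_mul, map_pow,
      map_pow, map_pow, e0, e1, e2, e3, e4, e5, eC, eC]
    unfold P0
    linear_combination X 3 * X 4 * hcC
  rw [h2] at h1
  refine lower (hdeg _ (hQ 0)) (hdeg _ (hR 0)) (hdeg _ (hQ 1)) (R2 := -aeval g (R 1)) ?_ ?_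
  · rw [totalDegree_neg]; exact hdeg _ (hR 1)
  · rw [h1]; ring

lemma rank_three (s : Fin 2 → K) (h : s 0 ≠ 0 ∨ s 1 = 0) :
    schmidtRank (member (family K) s) = 3 := by
  rw [rank_eq]
  apply le_antisymm
  · exact Nat.sInf_le (rep_three s)
  · by_contra hlt
    have h1 : sInf {r : ℕ | Rep (member (family K) s) r} ≤ 2 := by omega
    have h2 := Nat.sInf_mem (s := {r : ℕ | Rep (member (family K) s) r}) ⟨3, rep_three s⟩
    exact not_rep_two s h (Rep.mono h2 h1)

lemma rank_le (s : Fin 2 → K) : schmidtRank (member (family K) s) ≤ 3 := by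
  rw [rank_eq]; exact Nat.sInf_le (rep_three s)

lemma rank_le_two [IsAlgClosed K] (s : Fin 2 → K) (h0 : s 0 = 0) (h1 : s 1 ≠ 0) :
    schmidtRank (member (family K) s) ≤ 2 := by
  rw [rank_eq]; exact Nat.sInf_le (rep_two s h0 h1)

lemma maxLocus_eq [IsAlgClosed K] : maxLocus (family K) = {s | s 0 ≠ 0 ∨ s 1 = 0} := by
  have hmax : IsGreatest (Set.range fun s => schmidtRank (member (family K) s)) 3 := by
    refine ⟨⟨0, rank_three 0 (Or.inr rfl)⟩, ?_⟩
    rintro _ ⟨s, rfl⟩
    exact rank_le s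
  ext t
  simp only [maxLocus, Set.mem_ofPred_eq]
  constructor
  · intro h
    have h3 : schmidtRank (member (family K) t) = 3 := h.unique hmax
    by_contra hcon
    push Not at hcon
    have := rank_le_two t hcon.1 hcon.2
    omega
  · intro h
    rw [rank_three t h]
    exact hmax

lemma not_locallyClosed [Infinite K] :
    ¬ @IsLocallyClosed _ (zariski K 2) {s : Fin 2 → K | s 0 ≠ 0 ∨ s 1 = 0} := by
  rintro ⟨O, Z, hO, hZ, hU⟩
  obtain ⟨F, hF⟩ : Z ∈ Set.range (zeros (K := K) (m := 2)) := by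
    have h1 : Zᶜᶜ ∈ Set.range (zeros (K := K) (m := 2)) := hZ.isOpen_compl
    rwa [compl_compl] at h1
  obtain ⟨G, hG⟩ : Oᶜ ∈ Set.range (zeros (K := K) (m := 2)) := hO
  -- the closed set contains everything
  have hF0 : ∀ f ∈ F, f = 0 := by
    intro f hf
    have h1 : X 0 * f = 0 := by
      apply MvPolynomial.funext
      intro s
      rw [map_mul, eval_X, map_zero]
      by_cases hs : s 0 = 0
      · rw [hs, zero_mul]
      · have h2 : s ∈ O ∩ Z := by rw [← hU]; exact Or.inl hs
        have h3 : s ∈ zeros F := by rw [hF]; exact h2.2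
        rw [h3 f hf, mul_zero]
    exact (mul_eq_zero.mp h1).resolve_left (X_ne_zero 0)
  have hZu : ∀ s, s ∈ Z := by
    intro s
    rw [← hF]
    intro f hf
    rw [hF0 f hf, map_zero]
  have h00 : (0 : Fin 2 → K) ∈ O := by
    have : (0 : Fin 2 → K) ∈ O ∩ Z := by rw [← hU]; exact Or.inr rfl
    exact this.1
  have h0G : (0 : Fin 2 → K) ∉ zeros G := by rw [hG]; exact fun h => h h00
  obtain ⟨g, hg, hg0⟩ : ∃ g ∈ G, eval (0 : Fin 2 → K) g ≠ 0 := by
    simpa [zeros] using h0G
  have hax : ∀ t : K, t ≠ 0 → eval ![0, t] g = 0 := by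
    intro t ht
    have h1 : (![0, t] : Fin 2 → K) ∉ O := by
      intro h
      have h2 : (![0, t] : Fin 2 → K) ∈ O ∩ Z := ⟨h, hZu _⟩
      rw [← hU] at h2
      rcases h2 with h3 | h3
      · exact h3 rfl
      · exact ht h3
    have h4 : (![0, t] : Fin 2 → K) ∈ zeros G := by rw [hG]; exact h1
    exact h4 g hg
  have hpoly : ∀ t : K, (aeval ![0, Polynomial.X] g : Polynomial K).eval t = eval ![0, t] g := by
    intro t
    have h1 : ((Polynomial.aeval t).comp (aeval ![0, Polynomial.X]) :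
        MvPolynomial (Fin 2) K →ₐ[K] K) = aeval ![0, t] := by
      apply MvPolynomial.algHom_ext
      intro i
      fin_cases i <;> simp
    have h2 := congrArg (fun φ => φ g) h1
    simpa [Polynomial.coe_aeval_eq_eval] using h2
  have h5 : (Polynomial.X * aeval ![0, Polynomial.X] g : Polynomial K) = 0 := by
    apply Polynomial.funext
    intro t
    rw [Polynomial.eval_mul, Polynomial.eval_X, hpoly, Polynomial.eval_zero]
    by_cases ht : t = 0
    · rw [ht, zero_mul]
    · rw [hax t ht, mul_zero]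
  have h6 : (aeval ![0, Polynomial.X] g : Polynomial K) = 0 :=
    (mul_eq_zero.mp h5).resolve_left Polynomial.X_ne_zero
  apply hg0
  have h7 := hpoly 0
  rw [h6, Polynomial.eval_zero] at h7
  rw [h7]
  congr 2
  funext i
  fin_cases i <;> rfl

end

/-- **The locus of maximal Schmidt rank need not be locally closed** (answer to Q1: no). Over
every algebraically closed field `K`, the family of cubics
`P_{σ,τ} = x² + (σ r + τ p) q + y² p + z² q` in six variables, parametrised by the affine plane,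
consists of polynomials of degree exactly three; its maximal rank is `3`, attained exactly at the
points with `σ ≠ 0` or `τ = 0`; and this set is not locally closed in the Zariski topology. -/
theorem result (K : Type*) [Field K] [IsAlgClosed K] :
    (∀ s : Fin 2 → K, (member (family K) s).totalDegree = 3) ∧
    (∀ s : Fin 2 → K, schmidtRank (member (family K) s) ≤ 3 ∧
      (schmidtRank (member (family K) s) = 3 ↔ (s 0 ≠ 0 ∨ s 1 = 0))) ∧
    maxLocus (family K) = {s | s 0 ≠ 0 ∨ s 1 = 0} ∧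
    ¬ @IsLocallyClosed _ (zariski K 2) (maxLocus (family K)) := by
  have : Infinite K := IsAlgClosed.instInfinite
  refine ⟨totalDegree_member, fun s => ⟨rank_le s, fun h => ?_, rank_three s⟩, maxLocus_eq, ?_⟩
  · by_contra hcon
    push Not at hcon
    have := rank_le_two s hcon.1 hcon.2
    omega
  · rw [maxLocus_eq]
    exact not_locallyClosed

end Pool.Agent.Results.MP_60b600_ag.NotLocallyClosed
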